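import Mathlib

namespace Pool.Agent.Results.MP_55b43c_co.No

open SimpleGraph

inductive Win {V : Type} (G : SimpleGraph V) {k : ℕ} : (Fin k → V) → V → Prop
  | step (C C' : Fin k → V) (r : V) (hC : ∀ i, C' i = C i ∨ G.Adj (C i) (C' i))
      (h : ∀ r', (r' = r ∨ G.Adj r r') → (∀ i, C' i ≠ r') →
        (∀ i, r' ≠ r → s(C i, C' i) ≠ s(r, r')) → Win G C' r') : Win G C r

def CopsWin {V : Type} (G : SimpleGraph V) (k : ℕ) : Prop :=
  ∃ C : Fin k → V, ∀ r, (∀ i, C i ≠ r) → Win G C r

abbrev W (n : ℕ) := Fin n ⊕ Fin n × Fin n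

def H (n : ℕ) : SimpleGraph (W n) where
  Adj
    | .inl a, .inr p => a = p.1 ∨ a = p.2
    | .inr p, .inl a => a = p.1 ∨ a = p.2
    | _, _ => False
  symm := ⟨by rintro (a | a) (b | b) h <;> exact h⟩
  loopless := ⟨by rintro (a | a) h <;> exact h⟩

def G (n : ℕ) : SimpleGraph (Option (W n)) where
  Adj
    | some a, some b => (H n).Adj a b
    | none, none => False
    | _, _ => True
  symm := ⟨by
    rintro (_ | a) (_ | b) h
    exacts [h, trivial, trivial, (H n).adj_symm h]⟩
  loopless := ⟨by
    rintro (_ | a) h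
    exacts [h, (H n).irrefl h]⟩

lemma up1 (n : ℕ) (a : Fin n) (p : Fin n × Fin n) (h : a = p.1 ∨ a = p.2) :
    Win (G n) ![some (.inl a), none, none] (some (.inr p)) := by
  refine .step _ ![some (.inr p), some (.inl (if a = p.1 then p.2 else p.1)), none] _ ?_ ?_
  · intro i
    fin_cases i
    exacts [Or.inr h, Or.inr trivial, Or.inl rfl]
  · rintro (_ | b | q) h1 h2 h3
    · exact absurd rfl (h2 2)
    · have e : b = p.1 ∨ b = p.2 := by
        rcases h1 with h1 | h1
        · cases h1
        · exact h1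
      have a1 := h2 1
      have a2 := h3 0 (by simp)
      simp at a1 a2
      grind
    · rcases h1 with h1 | h1
      · exact absurd h1.symm (h2 0)
      · exact h1.elim

lemma up (n : ℕ) : CopsWin (G n) 3 := by
  refine ⟨fun _ => none, ?_⟩
  rintro (_ | a | p) h
  · exact absurd rfl (h 0)
  · refine .step _ ![some (.inl a), none, none] _ ?_ ?_
    · intro i
      fin_cases i
      exacts [Or.inr trivial, Or.inl rfl, Or.inl rfl]
    · rintro (_ | b | q) h1 h2 h3
      · exact absurd rfl (h2 2)
      · rcases h1 with h1 | h1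
        · exact absurd h1.symm (h2 0)
        · exact h1.elim
      · rcases h1 with h1 | h1
        · cases h1
        · exact up1 n a q h1
  · refine .step _ ![some (.inr p), some (.inl p.1), some (.inl p.2)] _ ?_ ?_
    · intro i
      fin_cases i
      exacts [Or.inr trivial, Or.inr trivial, Or.inr trivial]
    · rintro (_ | b | q) h1 h2 h3
      · exact absurd Sym2.eq_swap (h3 0 (by simp))
      · rcases h1 with h1 | h1 | h1
        · cases h1
        · exact absurd (by rw [h1]; rfl) (h2 1)
        · exact absurd (by rw [h1]; rfl) (h2 2)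
      · rcases h1 with h1 | h1
        · exact absurd h1.symm (h2 0)
        · exact h1.elim

def f1 {n : ℕ} : W n → Fin n
  | .inl a => a
  | .inr p => p.1

def f2 {n : ℕ} : W n → Fin n
  | .inl a => a
  | .inr p => p.2

lemma free {k n : ℕ} (hn : 3 * k + 1 < n) (a : Fin n) (x y z : Fin k → Fin n) :
    ∃ b, b ≠ a ∧ ∀ i, x i ≠ b ∧ y i ≠ b ∧ z i ≠ b := by
  have : (insert a (Finset.univ.image x ∪ Finset.univ.image y ∪ Finset.univ.image z)).card <
      (Finset.univ : Finset (Fin n)).card := by
    have c : ∀ x : Fin k → Fin n, (Finset.univ.image x).card ≤ k := fun x =>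
      Finset.card_image_le.trans (by simp)
    have := Finset.card_insert_le a
      (Finset.univ.image x ∪ Finset.univ.image y ∪ Finset.univ.image z)
    have := Finset.card_union_le (Finset.univ.image x ∪ Finset.univ.image y) (Finset.univ.image z)
    have := Finset.card_union_le (Finset.univ.image x) (Finset.univ.image y)
    have := c x
    have := c y
    have := c z
    simp only [Finset.card_univ, Fintype.card_fin]
    omega
  obtain ⟨b, -, hb⟩ := Finset.exists_mem_notMem_of_card_lt_card this
  simp at hb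
  exact ⟨b, hb.1, fun i => ⟨hb.2.1 i, hb.2.2.1 i, hb.2.2.2 i⟩⟩

def Safe {k n : ℕ} (C : Fin k → W n) : W n → Prop
  | .inl a => ∀ i, C i ≠ .inl a
  | .inr p => ∀ i, f1 (C i) ≠ p.2 ∧ f2 (C i) ≠ p.2

lemma low {k n : ℕ} (hn : 3 * k + 1 < n) (C : Fin k → W n) (r : W n) (h : Win (H n) C r) :
    ¬ Safe C r := by
  induction h with
  | step C C' r hC _ ih =>
    intro hs
    rcases r with a | p
    · obtain ⟨b, hb, hf⟩ := free hn a (fun i => f1 (C' i)) (fun i => f2 (C' i)) (fun i => f2 (C i))
      refine ih (.inr (a, b)) (Or.inr (Or.inl rfl)) (fun i e => (hf i).2.1 (by rw [e]; rfl))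
        (fun i _ e => ?_) (fun i => ⟨(hf i).1, (hf i).2.1⟩)
      rcases Sym2.eq_iff.1 e with e | e
      · exact hs i e.1
      · exact (hf i).2.2 (by rw [e.1]; rfl)
    · have s : ∀ i, C' i ≠ .inl p.2 := by
        intro i e
        have := hs i
        rcases hC i with h | h
        · rw [← h, e] at this
          exact this.1 rfl
        · rw [e] at h
          generalize C i = c at *
          rcases c with c | c
          · exact h
          · rcases h with h | h
            exacts [this.1 h.symm, this.2 h.symm]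
      refine ih (.inl p.2) (Or.inr (Or.inr rfl)) s (fun i _ e => ?_) s
      rcases Sym2.eq_iff.1 e with e | e
      · exact s i e.2
      · exact (hs i).1 (by rw [e.1]; rfl)

theorem result (k : ℕ) : ∃ (V U : Type) (_ : Finite V) (_ : Finite U) (A : SimpleGraph V)
    (B : SimpleGraph U), A.Connected ∧ B.Connected ∧ B ⊑ A ∧
    CopsWin A 3 ∧ ∀ j ≤ k, ¬ CopsWin B j := by
  refine ⟨_, _, inferInstance, inferInstance, G (3 * k + 2), H (3 * k + 2), ?_, ?_,
    ⟨⟨⟨some, fun h => h⟩, Option.some_injective _⟩⟩, up _, ?_⟩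
  · rw [connected_iff_exists_forall_reachable]
    refine ⟨none, ?_⟩
    rintro (_ | a)
    · rfl
    · exact Adj.reachable trivial
  · rw [connected_iff_exists_forall_reachable]
    have t : ∀ a, (H (3 * k + 2)).Reachable (.inl 0) (.inl a) := fun a =>
      (Adj.reachable (v := .inr (0, a)) (Or.inl rfl)).trans
        (Adj.reachable (G := H (3 * k + 2)) (u := Sum.inr (0, a)) (v := Sum.inl a) (Or.inr rfl))
    refine ⟨.inl 0, ?_⟩
    rintro (a | p)
    · exact t a
    · exact (t p.1).trans (Adj.reachable (Or.inl rfl))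
  · rintro j hj ⟨C, hC⟩
    obtain ⟨b, -, hb⟩ := free (k := j) (n := 3 * k + 2) (by omega) 0 (fun i => f1 (C i))
      (fun i => f1 (C i)) (fun i => f1 (C i))
    have s : ∀ i, C i ≠ .inl b := fun i e => (hb i).1 (by rw [e]; rfl)
    exact low (by omega) C _ (hC _ s) s

end Pool.Agent.Results.MP_55b43c_co.No
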